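import Mathlib
import Pool.Agent.V11219.TropRat

namespace Pool.Agent.Results.MP_f96ee4_an.NonConvergent

open Filter Topology

/-- For some positive parameters `α, δ, C` the recurrence
`x_{n+1} = (α + x_n + δ x_{n-2}) / (x_n + C x_{n-1})`
has a bounded solution with positive initial values which converges neither to a constant (in
particular not to the equilibrium) nor to any periodic sequence (in particular to no periodic
solution).  The sequence is indexed from `0`: `x 0 = x_{-2}`, `x 1 = x_{-1}`, `x 2 = x_0`. -/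
theorem result :
    ∃ α δ C : ℝ, 0 < α ∧ 0 < δ ∧ 0 < C ∧
      ∃ x : ℕ → ℝ, (∀ n, 0 < x n) ∧
        (∀ n, x (n + 3) = (α + x (n + 2) + δ * x n) / (x (n + 2) + C * x (n + 1))) ∧
        (∃ M, ∀ n, x n ≤ M) ∧
        (∀ c : ℝ, ¬ Tendsto x atTop (𝓝 c)) ∧
        ∀ (p : ℕ → ℝ) (k : ℕ), 0 < k → (∀ n, p (n + k) = p n) →
          ¬ Tendsto (fun n => x n - p n) atTop (𝓝 0) := by
  obtain ⟨x, h1, h2, h3, h4⟩ := V11219.TropRat.famA (L := 20000) (γ := 0)
    (D := 0) le_rfl le_rfl zero_le_one le_rfl (Real.exp_pos _).le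
  refine ⟨_, _, _, Real.exp_pos (20000 * 36), Real.exp_pos (20000 * 20),
    Real.exp_pos (20000 * 5), x, h1, ?_, h3, ?_, h4⟩
  · intro n
    rw [h2 n]
    congr 1 <;> ring
  · intro c hc
    apply h4 (fun _ => c) 1 one_pos (fun _ => rfl)
    have := hc.sub_const c
    simpa using this

end Pool.Agent.Results.MP_f96ee4_an.NonConvergent
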